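import Mathlib
import Pool.Agent.R9.Antimagic

/-!
# A graph with `τ(G) < β(G)`

For `G = C_3 ∪ K_{1,18}` one has `β(G) = 46`, but `G ∪ 46 P_3` is not antimagic.
-/

namespace Pool.Agent.Results.MP_f5b38d_co.TauBelowBeta

open Finset Pool.Agent.R9.AM

/-- A leaf: a vertex with exactly one neighbour. -/
def IsLeaf {V : Type} (G : SimpleGraph V) (v : V) : Prop := (G.neighborSet v).ncard = 1

/-- The internal edges: no end is a leaf. -/
def internalEdges {V : Type} (G : SimpleGraph V) : Set (Sym2 V) :=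
  {e | e ∈ G.edgeSet ∧ ∀ v ∈ e, ¬ IsLeaf G v}

/-- The components isomorphic to the path `P_r` with `r` vertices. -/
def pathComponents {V : Type} (G : SimpleGraph V) (r : ℕ) : Set G.ConnectedComponent :=
  {c | Nonempty (G.induce c.supp ≃g SimpleGraph.pathGraph r)}

/-- The number `β(G)`. -/
noncomputable def beta {V : Type} [Fintype V] (G : SimpleGraph V) : ℤ :=
  ⌊min ((3 + 2 * √2) * ((G.edgeSet.ncard : ℝ) - Fintype.card V) +
      (1 + √2) * ((G.edgeSet.ncard : ℝ) + 1 / 2))
    (2 * (G.edgeSet.ncard : ℝ) +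
      5 * (((internalEdges G).ncard : ℝ) - (pathComponents G 3).ncard) + 1)⌋

/-- The graph `C_3 ∪ K_{1,18}`. -/
abbrev G0 : SimpleGraph (Fin 3 ⊕ (Unit ⊕ Fin 18)) :=
  (⊤ : SimpleGraph (Fin 3)) ⊕g completeBipartiteGraph Unit (Fin 18)

/-- The edges of the triangle. -/
def edT : EdgeEnum (⊤ : SimpleGraph (Fin 3)) (Fin 3) where
  ed j := s(j, j + 1)
  inj := by
    intro i j h
    fin_cases i <;> fin_cases j <;> simp_all
  range_eq := by
    ext e
    induction e with
    | h p q =>
      rw [SimpleGraph.mem_edgeSet, SimpleGraph.top_adj, Set.mem_range]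
      revert p q
      decide

lemma vs_edT (g : Fin 3 → ℕ) (v : Fin 3) : edT.vs g v = g v + g (v + 2) := by
  unfold EdgeEnum.vs
  rw [Fin.sum_univ_three]
  fin_cases v <;> simp [edT] <;> ring

/-- The enumeration of the edges of `G0`. -/
def ed0 : EdgeEnum G0 (Fin 3 ⊕ Fin 18) := edT.sum (edS 18)

lemma card_edges : G0.edgeSet.ncard = 21 := by
  rw [ed0.ncard_edgeSet]
  rfl

/-- `G0 ∪ 46 P_3` is not antimagic. -/
lemma not_antimagic : ¬ IsAntimagic (G0 ⊕g P3s 46) := by
  intro h
  have h1 := counting ed0 46 (Finset.univ.map Function.Embedding.inl)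
    (Finset.univ.map Function.Embedding.inl) 46 18 (by simp) (by simp) ?_ ?_ ?_ h
  · revert h1
    simp only [Fintype.card_sum, Fintype.card_fin]
    decide
  · rintro (x | x) hx
    · exact absurd (Finset.mem_map_of_mem _ (Finset.mem_univ x)) hx
    · refine ⟨Sum.inr (Sum.inr x), by simp, ?_⟩
      intro g
      rw [ed0, EdgeEnum.vs_sum_inr, vs_edS_leaf]
  · intro v hv g hg
    rw [Finset.mem_map] at hv
    obtain ⟨w, -, rfl⟩ := hv
    rw [ed0]
    change 0 < (edT.sum (edS 18)).vs g (Sum.inl w)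
    rw [EdgeEnum.vs_sum_inl, vs_edT]
    have := hg (Sum.inl w)
    omega
  · intro g
    rw [Finset.sum_map, Finset.sum_map]
    simp only [Function.Embedding.inl_apply]
    have h2 : ∀ w : Fin 3, ed0.vs g (Sum.inl w) = g (Sum.inl w) + g (Sum.inl (w + 2)) := by
      intro w
      rw [ed0, EdgeEnum.vs_sum_inl, vs_edT]
    simp only [h2]
    rw [Fin.sum_univ_three, Fin.sum_univ_three]
    have e0 : (0 : Fin 3) + 2 = 2 := by decide
    have e1 : (1 : Fin 3) + 2 = 0 := by decide
    have e2 : (2 : Fin 3) + 2 = 1 := by decide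
    rw [e0, e1, e2]
    omega

/-! ## The structure of `G0` -/

lemma adj_tt (u v : Fin 3) : G0.Adj (Sum.inl u) (Sum.inl v) ↔ u ≠ v := by simp

lemma adj_cl (x : Unit) (j : Fin 18) : G0.Adj (Sum.inr (Sum.inl x)) (Sum.inr (Sum.inr j)) := by
  simp

lemma nbr_t (v : Fin 3) : G0.neighborSet (Sum.inl v) = Sum.inl '' {w | w ≠ v} := by
  ext x
  rcases x with x | x
  · simp [eq_comm]
  · simp

lemma nbr_c : G0.neighborSet (Sum.inr (Sum.inl ())) = Set.range fun j => Sum.inr (Sum.inr j) := by
  ext x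
  rcases x with x | x | x
  · simp
  · simp
  · simp

lemma nbr_l (j : Fin 18) : G0.neighborSet (Sum.inr (Sum.inr j)) = {Sum.inr (Sum.inl ())} := by
  ext x
  rcases x with x | x | x
  · simp
  · simp
  · simp

lemma not_leaf_t (v : Fin 3) : ¬ IsLeaf G0 (Sum.inl v) := by
  unfold IsLeaf
  rw [nbr_t, Set.ncard_image_of_injective _ Sum.inl_injective]
  have : ({w : Fin 3 | w ≠ v} : Set (Fin 3)) = ((Finset.univ.erase v : Finset (Fin 3)) : Set _) := by
    ext w
    simp
  rw [this, Set.ncard_coe_finset, Finset.card_erase_of_mem (Finset.mem_univ _)]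
  decide

lemma leaf_l (j : Fin 18) : IsLeaf G0 (Sum.inr (Sum.inr j)) := by
  unfold IsLeaf
  rw [nbr_l, Set.ncard_singleton]

lemma internal_eq : internalEdges G0 = Set.range fun j : Fin 3 => ed0.ed (Sum.inl j) := by
  ext e
  constructor
  · rintro ⟨he, h⟩
    rw [← ed0.range_eq] at he
    obtain ⟨x | x, rfl⟩ := he
    · exact ⟨x, rfl⟩
    · exact absurd (leaf_l x) (h _ (by simp [ed0, EdgeEnum.sum, edS]))
  · rintro ⟨x, rfl⟩
    refine ⟨?_, ?_⟩
    · rw [← ed0.range_eq]
      exact ⟨_, rfl⟩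
    · rintro (v | v) hv
      · exact not_leaf_t v
      · exact absurd hv (EdgeEnum.inr_mem_sum' edT (edS 18) v x)

lemma card_internal : (internalEdges G0).ncard = 3 := by
  have h : Function.Injective fun j : Fin 3 => ed0.ed (Sum.inl j) :=
    ed0.inj.comp Sum.inl_injective
  rw [internal_eq, ← Set.image_univ, Set.ncard_image_of_injective _ h, Set.ncard_univ]
  simp

/-- A component isomorphic to `P_r` has at most `r` vertices. -/
lemma card_le_of_iso {V : Type} (G : SimpleGraph V) (c : G.ConnectedComponent) (r s : ℕ)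
    (φ : G.induce c.supp ≃g SimpleGraph.pathGraph r) (f : Fin s → V) (hf : Function.Injective f)
    (hfc : ∀ i, f i ∈ c.supp) : s ≤ r := by
  have h : Function.Injective fun i : Fin s => φ ⟨f i, hfc i⟩ := by
    intro i j hij
    have h1 := φ.injective hij
    exact hf (Subtype.mk.inj h1)
  have := Fintype.card_le_of_injective _ h
  simpa using this

lemma no_path (r : ℕ) (hr : r = 2 ∨ r = 3) (c : G0.ConnectedComponent)
    (φ : G0.induce c.supp ≃g SimpleGraph.pathGraph r) : False := by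
  have hr0 : 0 < r := by omega
  have hr1 : 1 < r := by omega
  have hcl : ∀ u v, u ∈ c.supp → G0.Adj u v → v ∈ c.supp := fun u v hu h =>
    c.mem_supp_of_adj_mem_supp hu h
  -- no star vertex in the component
  have hstar : ∀ y : Unit ⊕ Fin 18, Sum.inr y ∉ c.supp := by
    have hc : Sum.inr (Sum.inl ()) ∉ c.supp := by
      intro h
      have h1 := card_le_of_iso G0 c r 18 φ (fun j => Sum.inr (Sum.inr j))
        (fun i j hij => by simpa using hij) (fun j => hcl _ _ h (adj_cl () j))
      omega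
    rintro (y | j) hy
    · exact hc hy
    · exact hc (hcl _ _ hy (adj_cl () j).symm)
  -- so it contains a triangle vertex
  have h0 := (φ.symm ⟨0, hr0⟩).2
  generalize (φ.symm ⟨0, hr0⟩ : c.supp).1 = x at h0
  rcases x with v | y
  · have hall : ∀ w : Fin 3, (Sum.inl w : Fin 3 ⊕ (Unit ⊕ Fin 18)) ∈ c.supp := by
      intro w
      by_cases hw : v = w
      · rw [← hw]; exact h0
      · exact hcl _ _ h0 ((adj_tt v w).2 hw)
    have h3 := card_le_of_iso G0 c r 3 φ (fun w => Sum.inl w) Sum.inl_injective hall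
    have hr3 : r = 3 := by omega
    subst hr3
    -- the end vertices of the path are not adjacent
    have hn : ¬ (SimpleGraph.pathGraph 3).Adj 0 2 := by
      rw [SimpleGraph.pathGraph_adj]; simp
    apply hn
    have h4 : (G0.induce c.supp).Adj (φ.symm 0) (φ.symm 2) := by
      have hne : φ.symm (0 : Fin 3) ≠ φ.symm (2 : Fin 3) := by
        intro h
        exact absurd (φ.symm.injective h) (by decide)
      change G0.Adj (φ.symm 0 : c.supp).1 (φ.symm 2 : c.supp).1
      have ha := (φ.symm 0 : c.supp).2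
      have hb := (φ.symm 2 : c.supp).2
      have hne' : (φ.symm 0 : c.supp).1 ≠ (φ.symm 2 : c.supp).1 := fun h => hne (Subtype.ext h)
      generalize (φ.symm 0 : c.supp).1 = p at *
      generalize (φ.symm 2 : c.supp).1 = q at *
      rcases p with p | p
      · rcases q with q | q
        · exact (adj_tt p q).2 (fun h => hne' (by rw [h]))
        · exact absurd hb (hstar q)
      · exact absurd ha (hstar p)
    rw [← φ.map_adj_iff] at h4
    simpa using h4
  · exact hstar y h0

lemma no_path_components (r : ℕ) (hr : r = 2 ∨ r = 3) : pathComponents G0 r = ∅ := by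
  rw [Set.eq_empty_iff_forall_notMem]
  rintro c ⟨φ⟩
  exact no_path r hr c φ

lemma beta_ge : 46 ≤ beta G0 := by
  unfold beta
  rw [card_edges, card_internal, no_path_components 3 (Or.inr rfl), Set.ncard_empty, Int.le_floor]
  have hc : Fintype.card (Fin 3 ⊕ (Unit ⊕ Fin 18)) = 22 := by simp
  rw [hc]
  have h2 : (1.4142 : ℝ) < √2 := by
    apply Real.lt_sqrt_of_sq_lt
    norm_num
  refine le_min ?_ ?_
  · push_cast
    nlinarith
  · norm_num

/-- An injective labelling by numbers between `1` and the number of edges is bijective. -/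
lemma bijOn_of_inj {E : Type} [Fintype E] (g : E → ℕ) (hg : Function.Injective g)
    (h : ∀ x, 1 ≤ g x ∧ g x ≤ Fintype.card E) :
    Set.BijOn g Set.univ (Set.Icc 1 (Fintype.card E)) := by
  refine ⟨fun x _ => h x, hg.injOn, ?_⟩
  have h1 : Finset.univ.image g = Finset.Icc 1 (Fintype.card E) := by
    apply Finset.eq_of_subset_of_card_le
    · intro y hy
      rw [Finset.mem_image] at hy
      obtain ⟨x, -, rfl⟩ := hy
      exact Finset.mem_Icc.2 (h x)
    · rw [Finset.card_image_of_injective _ hg, Nat.card_Icc, Finset.card_univ]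
      omega
  intro y hy
  have h2 : y ∈ Finset.univ.image g := by
    rw [h1]
    exact Finset.mem_Icc.2 hy
  rw [Finset.mem_image] at h2
  obtain ⟨x, -, hx⟩ := h2
  exact ⟨x, Set.mem_univ _, hx⟩

/-- The labelling of `G0 ∪ 0 P_3`: the star gets `1, …, 18`, the triangle gets `19, 20, 21`. -/
def g0 : (Fin 3 ⊕ Fin 18) ⊕ (Fin 0 × Bool) → ℕ :=
  Sum.elim (Sum.elim (fun j => 19 + j.1) (fun i => i.1 + 1)) (fun p => p.1.elim0)

/-- `G0 ∪ 0 P_3` is antimagic. -/
lemma antimagic_zero : IsAntimagic (G0 ⊕g P3s 0) := by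
  rw [EdgeEnum.isAntimagic_iff' (ed0.sum (edP 0))]
  refine ⟨g0, ?_, ?_⟩
  · apply bijOn_of_inj
    · rintro ((x | x) | ⟨x, -⟩) ((y | y) | ⟨y, -⟩) h
      · simp only [g0, Sum.elim_inl] at h
        congr 2
        omega
      · simp only [g0, Sum.elim_inl, Sum.elim_inr] at h
        omega
      · exact y.elim0
      · simp only [g0, Sum.elim_inl, Sum.elim_inr] at h
        omega
      · simp only [g0, Sum.elim_inl, Sum.elim_inr] at h
        congr 2
        omega
      · exact y.elim0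
      · exact x.elim0
      · exact x.elim0
      · exact x.elim0
    · have hc : Fintype.card ((Fin 3 ⊕ Fin 18) ⊕ (Fin 0 × Bool)) = 21 := by simp
      rw [hc]
      rintro ((x | x) | ⟨x, -⟩)
      · simp only [g0, Sum.elim_inl]
        omega
      · simp only [g0, Sum.elim_inl, Sum.elim_inr]
        omega
      · exact x.elim0
  · have ht : ∀ v : Fin 3, (ed0.sum (edP 0)).vs g0 (Sum.inl (Sum.inl v)) =
        (19 + v.1) + (19 + (v + 2).1) := by
      intro v
      rw [EdgeEnum.vs_sum_inl, ed0, EdgeEnum.vs_sum_inl, vs_edT]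
      rfl
    have hc : ∀ u : Unit, (ed0.sum (edP 0)).vs g0 (Sum.inl (Sum.inr (Sum.inl u))) = 171 := by
      rintro ⟨⟩
      rw [EdgeEnum.vs_sum_inl, ed0, EdgeEnum.vs_sum_inr, vs_edS_center]
      rfl
    have hl : ∀ j : Fin 18, (ed0.sum (edP 0)).vs g0 (Sum.inl (Sum.inr (Sum.inr j))) = j.1 + 1 := by
      intro j
      rw [EdgeEnum.vs_sum_inl, ed0, EdgeEnum.vs_sum_inr, vs_edS_leaf]
      rfl
    have ht' : ∀ v : Fin 3, (ed0.sum (edP 0)).vs g0 (Sum.inl (Sum.inl v)) = 40 ∧ v = 0 ∨
        (ed0.sum (edP 0)).vs g0 (Sum.inl (Sum.inl v)) = 39 ∧ v = 1 ∨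
        (ed0.sum (edP 0)).vs g0 (Sum.inl (Sum.inl v)) = 41 ∧ v = 2 := by
      intro v
      rw [ht v]
      revert v
      decide
    rintro ((v | u | j) | ⟨x, -⟩) ((v' | u' | j') | ⟨x', -⟩) h
    · rcases ht' v with ⟨h1, h2⟩ | ⟨h1, h2⟩ | ⟨h1, h2⟩ <;>
        rcases ht' v' with ⟨h3, h4⟩ | ⟨h3, h4⟩ | ⟨h3, h4⟩ <;>
        first
          | (exfalso; omega)
          | (rw [h2, h4])
    · have := hc u'
      rcases ht' v with ⟨h1, h2⟩ | ⟨h1, h2⟩ | ⟨h1, h2⟩ <;> (exfalso; omega)
    · have := hl j'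
      rcases ht' v with ⟨h1, h2⟩ | ⟨h1, h2⟩ | ⟨h1, h2⟩ <;> (exfalso; omega)
    · exact x'.elim0
    · have := hc u
      rcases ht' v' with ⟨h1, h2⟩ | ⟨h1, h2⟩ | ⟨h1, h2⟩ <;> (exfalso; omega)
    · rfl
    · have := hl j'
      have := hc u
      exfalso; omega
    · exact x'.elim0
    · have := hl j
      rcases ht' v' with ⟨h1, h2⟩ | ⟨h1, h2⟩ | ⟨h1, h2⟩ <;> (exfalso; omega)
    · have := hl j
      have := hc u'
      exfalso; omega
    · have h1 := hl j
      have h2 := hl j'
      have h3 : j = j' := by omega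
      rw [h3]
    · exact x'.elim0
    · exact x.elim0
    · exact x.elim0
    · exact x.elim0
    · exact x.elim0

/-- **Main theorem.**  There is a graph `G` without isolated vertices and without components
isomorphic to `P_2` such that `β(G) ≥ 0` and `τ(G) < β(G)`, where `τ(G)` is the greatest `t` such
that `G ∪ t' P_3` is antimagic for all `0 ≤ t' ≤ t`. -/
theorem result : ∃ (V : Type) (_ : Fintype V) (G : SimpleGraph V),
    (∀ v, ∃ w, G.Adj v w) ∧ pathComponents G 2 = ∅ ∧ 0 ≤ beta G ∧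
    ∃ τ : ℕ, IsGreatest {t : ℕ | ∀ t' ≤ t, IsAntimagic (G ⊕g P3s t')} τ ∧ (τ : ℤ) < beta G := by
  refine ⟨Fin 3 ⊕ (Unit ⊕ Fin 18), inferInstance, G0, ?_, no_path_components 2 (Or.inl rfl),
    le_trans (by norm_num) beta_ge, ?_⟩
  · rintro (v | _ | j)
    · exact ⟨Sum.inl (v + 1), by simp⟩
    · exact ⟨Sum.inr (Sum.inr 0), adj_cl () 0⟩
    · exact ⟨Sum.inr (Sum.inl ()), (adj_cl () j).symm⟩
  · have hlt : ∀ s ∈ tauSet G0, s < 46 := not_mem_tauSet not_antimagic
    have hne : (tauSet G0).Nonempty := by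
      refine ⟨0, ?_⟩
      intro t' ht'
      have : t' = 0 := by omega
      subst this
      exact antimagic_zero
    have hbdd : BddAbove (tauSet G0) := ⟨46, fun s hs => (hlt s hs).le⟩
    have hmem := Nat.sSup_mem hne hbdd
    refine ⟨sSup (tauSet G0), ⟨hmem, fun s hs => le_csSup hbdd hs⟩, ?_⟩
    have h1 := hlt _ hmem
    have h2 := beta_ge
    omega

end Pool.Agent.Results.MP_f5b38d_co.TauBelowBeta
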